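import Mathlib
import Pool.Agent.Helper24.TF.StF

/-!
# Project TF, module F3 (finite fields)
-/

set_option autoImplicit false

namespace Pool.Agent.Helper15.TF

open NumberField IsDedekindDomain Polynomial Filter Topology
open Pool.Agent.Helper95.TT Pool.Agent.Helper24.TF
open scoped Classical

noncomputable section

section fin

variable {F : Type} [Field F] [Finite F]

/-- the quadratic character of a finite field, real valued -/
def cG (a : F) : ℝ := if a = 0 then 0 else if IsSquare a then 1 else -1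

theorem cG_eq [Fintype F] (a : F) : cG a = ((quadraticChar F a : ℤ) : ℝ) := by
  unfold cG
  rw [quadraticChar_apply]
  unfold quadraticCharFun
  split_ifs <;> simp

theorem cG_mul (a b : F) : cG (a * b) = cG a * cG b := by
  letI := Fintype.ofFinite F
  rw [cG_eq, cG_eq, cG_eq, map_mul]
  push_cast
  rfl

theorem cG_abs (a : F) : |cG a| ≤ 1 := by
  unfold cG
  split_ifs <;> simp

theorem sq_card (h2 : (2 : F) ≠ 0) (c : F) : (Nat.card {z : F // z ^ 2 = c} : ℝ) = 1 + cG c := by
  letI := Fintype.ofFinite F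
  have hF : ringChar F ≠ 2 := by
    intro h
    apply h2
    have := (ringChar.spec F 2).2 (by rw [h])
    exact_mod_cast this
  have h1 := quadraticChar_card_sqrts hF c
  rw [cG_eq]
  have h3 : Nat.card {z : F // z ^ 2 = c} = {x : F | x ^ 2 = c}.toFinset.card := by
    rw [Set.toFinset_card, Nat.card_eq_fintype_card]
    rfl
  rw [h3]
  have h4 : ((({x : F | x ^ 2 = c}.toFinset.card : ℕ) : ℤ) : ℝ) = ((quadraticChar F c + 1 : ℤ) : ℝ) := by
    rw [← h1]
  push_cast at h4
  rw [h4]
  ring

theorem aff_card (h2 : (2 : F) ≠ 0) (h : F → F) :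
    (Nat.card {z : F × F // z.2 ^ 2 = h z.1} : ℝ) = Nat.card F + ∑ᶠ x : F, cG (h x) := by
  letI := Fintype.ofFinite F
  let e : {z : F × F // z.2 ^ 2 = h z.1} ≃ Σ x : F, {z : F // z ^ 2 = h x} :=
    { toFun := fun z => ⟨z.1.1, z.1.2, z.2⟩
      invFun := fun z => ⟨(z.1, z.2.1), z.2.2⟩
      left_inv := fun _ => rfl
      right_inv := fun _ => rfl }
  rw [Nat.card_congr e, Nat.card_sigma, finsum_eq_sum_of_fintype]
  push_cast
  rw [Finset.sum_congr rfl fun x _ => sq_card h2 (h x), Finset.sum_add_distrib]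
  simp

/-- number of points of `z² = h(x)` -/
def ptsG (h : F[X]) : ℕ :=
  Nat.card {z : F × F // z.2 ^ 2 = h.eval z.1} +
  if Even h.natDegree then Nat.card {z : F // z ^ 2 = h.leadingCoeff} else 1

theorem trG (h2 : (2 : F) ≠ 0) (h : F[X]) :
    (Nat.card F : ℝ) + 1 - ptsG h =
      -((∑ᶠ x : F, cG (h.eval x)) + if Even h.natDegree then cG h.leadingCoeff else 0) := by
  unfold ptsG
  push_cast
  rw [aff_card h2 (fun x => h.eval x)]
  split_ifs
  · rw [sq_card h2]; ring
  · push_cast; ring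

theorem trG_mul (h2 : (2 : F) ≠ 0) (a : F) (ha : a ≠ 0) (h : F[X]) :
    (Nat.card F : ℝ) + 1 - ptsG (C a * h) = cG a * ((Nat.card F : ℝ) + 1 - ptsG h) := by
  letI := Fintype.ofFinite F
  rw [trG h2, trG h2, natDegree_C_mul ha, leadingCoeff_mul, leadingCoeff_C]
  simp only [eval_mul, eval_C, cG_mul]
  rw [finsum_eq_sum_of_fintype, finsum_eq_sum_of_fintype, ← Finset.mul_sum]
  split_ifs <;> ring

theorem sumG (h2 : (2 : F) ≠ 0) (h : F[X]) :
    |∑ᶠ x : F, cG (h.eval x)| ≤ |(Nat.card F : ℝ) + 1 - ptsG h| + 1 := by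
  rw [trG h2, abs_neg]
  have h1 : |(if Even h.natDegree then cG h.leadingCoeff else 0 : ℝ)| ≤ 1 := by
    split_ifs
    · exact cG_abs _
    · simp
  have e : (∑ᶠ x : F, cG (h.eval x)) = ((∑ᶠ x : F, cG (h.eval x)) +
      (if Even h.natDegree then cG h.leadingCoeff else 0)) -
      (if Even h.natDegree then cG h.leadingCoeff else 0) := by ring
  calc |∑ᶠ x : F, cG (h.eval x)| = |((∑ᶠ x : F, cG (h.eval x)) +
      (if Even h.natDegree then cG h.leadingCoeff else 0)) -
      (if Even h.natDegree then cG h.leadingCoeff else 0)| := by rw [← e]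
    _ ≤ |(∑ᶠ x : F, cG (h.eval x)) + (if Even h.natDegree then cG h.leadingCoeff else 0)| +
      |(if Even h.natDegree then cG h.leadingCoeff else 0 : ℝ)| := abs_sub _ _
    _ ≤ _ := by linarith

end fin

theorem lift_pol {k : Type} [Field k] [NumberField k] (v : Pr k) (h : (Kv v)[X]) :
    ∃ H : (𝓞 k)[X], H.map (Ideal.Quotient.mk v.asIdeal) = h ∧ H.natDegree = h.natDegree := by
  have h1 : h ∈ lifts (Ideal.Quotient.mk v.asIdeal) := by
    rw [Polynomial.lifts_iff_coeff_lifts]
    intro n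
    exact Ideal.Quotient.mk_surjective _
  obtain ⟨H, hH, hd⟩ := Polynomial.exists_degree_eq_of_mem_lifts h1
  exact ⟨H, hH, natDegree_eq_of_degree_eq hd⟩

theorem tr_lift {k : Type} [Field k] [NumberField k] (v : Pr k) (h : (Kv v)[X])
    (H : (𝓞 k)[X]) (hH : H.map (Ideal.Quotient.mk v.asIdeal) = h)
    (hd : H.natDegree = h.natDegree) : trF v h = tr 1 H v := by
  have hlc : Ideal.Quotient.mk v.asIdeal H.leadingCoeff = h.leadingCoeff := by
    unfold Polynomial.leadingCoeff
    rw [← Polynomial.coeff_map, hH, hd]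
  unfold trF tr ptsF pts
  rw [hd, hH, map_mul, hlc, map_one]
  simp only [one_mul]

theorem q_card {k : Type} [Field k] [NumberField k] (v : Pr k) : Nat.card (Kv v) = q v := by
  unfold q
  rfl

theorem fin_Kv {k : Type} [Field k] [NumberField k] (v : Pr k) : Finite (Kv v) :=
  Ideal.finiteQuotientOfFreeOfNeBot v.asIdeal v.ne_bot

theorem hF3 (_hA5 : StA5) (hA6 : StA6) : StF3 := by
  intro k _ _ v h2v
  haveI := fin_Kv v
  haveI : v.asIdeal.IsMaximal := v.isMaximal
  letI fld : Field (Kv v) := Ideal.Quotient.field v.asIdeal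
  have h2 : (2 : Kv v) ≠ 0 := by
    intro h
    apply h2v
    rw [← Ideal.Quotient.eq_zero_iff_mem]
    rw [map_ofNat]
    exact h
  have hch : ∀ a : Kv v, chF v a = cG a := fun a => rfl
  have htr : ∀ h : (Kv v)[X], (trF v h : ℝ) = (Nat.card (Kv v) : ℝ) + 1 - ptsG h := by
    intro h
    unfold trF
    rw [q_card]
    push_cast
    rfl
  refine ⟨?_, ?_, ?_, ?_, ?_⟩
  · intro a b
    exact cG_mul a b
  · intro a h ha
    rw [htr, htr, hch]
    exact trG_mul h2 a ha h
  · intro h hdeg hsq
    obtain ⟨H, hH, hd⟩ := lift_pol v h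
    rw [tr_lift v h H hH hd, ← hd]
    refine hA6 k v H (by rw [hd]; exact hdeg) ?_
    unfold Bad
    push Not
    refine ⟨h2v, ?_, ?_⟩
    · intro hc
      rw [← Ideal.Quotient.eq_zero_iff_mem] at hc
      have hlc : Ideal.Quotient.mk v.asIdeal H.leadingCoeff = h.leadingCoeff := by
        unfold Polynomial.leadingCoeff
        rw [← Polynomial.coeff_map, hH, hd]
      rw [hlc, leadingCoeff_eq_zero] at hc
      rw [hc, natDegree_zero] at hdeg
      omega
    · rw [hH]; exact hsq
  · intro h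
    rw [htr]
    exact sumG h2 h
  · intro a
    have h0 : (Ideal.Quotient.mk v.asIdeal a = 0) ↔ 2 * a ∈ v.asIdeal := by
      rw [Ideal.Quotient.eq_zero_iff_mem]
      constructor
      · intro h; exact Ideal.mul_mem_left _ _ h
      · intro h
        rcases v.isPrime.mem_or_mem h with h' | h'
        · exact absurd h' h2v
        · exact h'
    have h1 : IsSquare (Ideal.Quotient.mk v.asIdeal a) ↔ ∃ b : 𝓞 k, b ^ 2 - a ∈ v.asIdeal := by
      constructor
      · rintro ⟨r, hr⟩
        obtain ⟨b, rfl⟩ := Ideal.Quotient.mk_surjective r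
        refine ⟨b, ?_⟩
        rw [← Ideal.Quotient.eq_zero_iff_mem, map_sub, map_pow, sq, ← hr, sub_self]
      · rintro ⟨b, hb⟩
        rw [← Ideal.Quotient.eq_zero_iff_mem, map_sub, map_pow, sub_eq_zero] at hb
        exact ⟨Ideal.Quotient.mk v.asIdeal b, by rw [← hb, sq]⟩
    unfold chF chi
    simp only [h0, h1]

end

end Pool.Agent.Helper15.TF
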